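import Pool.Agent.TH970.UM.Inh

/-! Construction of an Eisenstein polynomial with a small value and a large derivative. -/

set_option autoImplicit false

open Polynomial Finset

namespace Pool.Agent.TH970.UM

noncomputable def pol {n : ℕ} (a : Fin n → ℤ) (c : ℤ) : ℤ[X] :=
  ∑ i, C (a i) * X ^ ((i : ℕ) + 1) + C c

theorem pol_coeff_succ {n : ℕ} (a : Fin n → ℤ) (c : ℤ) (i : Fin n) :
    (pol a c).coeff ((i : ℕ) + 1) = a i := by
  unfold pol
  rw [coeff_add, coeff_C_succ, add_zero, finsetSum_coeff, Finset.sum_eq_single i]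
  · rw [coeff_C_mul_X_pow, if_pos rfl]
  · intro b _ hb
    rw [coeff_C_mul_X_pow, if_neg]
    intro h
    apply hb
    ext
    omega
  · intro h; exact absurd (Finset.mem_univ _) h

theorem pol_coeff_zero {n : ℕ} (a : Fin n → ℤ) (c : ℤ) : (pol a c).coeff 0 = c := by
  unfold pol
  rw [coeff_add, coeff_C_zero, finsetSum_coeff, Finset.sum_eq_zero, zero_add]
  intro b _
  rw [coeff_C_mul_X_pow, if_neg (by omega)]

theorem pol_natDegree_le {n : ℕ} (a : Fin n → ℤ) (c : ℤ) : (pol a c).natDegree ≤ n := by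
  unfold pol
  refine (natDegree_add_le _ _).trans (max_le ?_ ?_)
  · apply natDegree_sum_le_of_forall_le
    intro i _
    refine (natDegree_C_mul_X_pow_le _ _).trans ?_
    omega
  · rw [natDegree_C]; omega

theorem pol_coeff_le {n : ℕ} (a : Fin n → ℤ) (c : ℤ) (B : ℝ) (ha : ∀ i, |(a i : ℝ)| ≤ B)
    (hc : |(c : ℝ)| ≤ B) (j : ℕ) : |((pol a c).coeff j : ℝ)| ≤ B := by
  rcases Nat.eq_zero_or_pos j with rfl | hj
  · rw [pol_coeff_zero]; exact hc
  · by_cases hjn : j ≤ n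
    · have h := pol_coeff_succ a c ⟨j - 1, by omega⟩
      have e : j - 1 + 1 = j := by omega
      simp only [e] at h
      rw [h]; exact ha _
    · rw [coeff_eq_zero_of_natDegree_lt (lt_of_le_of_lt (pol_natDegree_le a c) (by omega))]
      simp only [Int.cast_zero, abs_zero]
      exact (abs_nonneg _).trans hc

theorem pol_aeval {n : ℕ} (a : Fin n → ℤ) (c : ℤ) (ξ : ℝ) :
    aeval ξ (pol a c) = ∑ i, (a i : ℝ) * ξ ^ ((i : ℕ) + 1) + c := by
  unfold pol
  rw [map_add, map_sum, aeval_C]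
  simp [map_mul, aeval_C, aeval_X_pow]

theorem pol_aeval_der {n : ℕ} (a : Fin n → ℤ) (c : ℤ) (ξ : ℝ) :
    aeval ξ (derivative (pol a c)) = ∑ i, (a i : ℝ) * (((i : ℕ) + 1) * ξ ^ (i : ℕ)) := by
  unfold pol
  rw [derivative_add, derivative_C, add_zero, derivative_sum, map_sum]
  refine Finset.sum_congr rfl fun i _ => ?_
  rw [derivative_C_mul_X_pow]
  simp only [map_mul, aeval_C, aeval_X_pow, Nat.add_sub_cancel, C_mul, algebraMap_int_eq]
  simp
  ring

/-- the coefficients of the polynomial -/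
def aP (N : ℕ) (U : Fin (N + 1) → ℕ) (Y : ℤ) : Fin (N + 1) → ℤ := fun i =>
  4 * (U i : ℤ) + (if i = 0 then 4 * Y else 0) + (if i = Fin.last N then 1 else 0)

theorem aP_odd (N : ℕ) (U : Fin (N + 1) → ℕ) (Y c : ℤ) :
    ¬ (2 : ℤ) ∣ (pol (aP N U Y) c).coeff (N + 1) := by
  have h := pol_coeff_succ (aP N U Y) c (Fin.last N)
  rw [Fin.val_last] at h
  rw [h]
  unfold aP
  rw [if_pos rfl]
  split_ifs <;> omega

theorem aP_natDegree (N : ℕ) (U : Fin (N + 1) → ℕ) (Y c : ℤ) :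
    (pol (aP N U Y) c).natDegree = N + 1 := by
  apply le_antisymm (pol_natDegree_le _ _)
  apply le_natDegree_of_ne_zero
  intro h0
  apply aP_odd N U Y c
  rw [h0]
  exact dvd_zero _

theorem aP_even (N : ℕ) (U : Fin (N + 1) → ℕ) (Y w : ℤ) (j : ℕ) (hj : j < N + 1) :
    (2 : ℤ) ∣ (pol (aP N U Y) (2 - 4 * w)).coeff j := by
  rcases Nat.eq_zero_or_pos j with rfl | hj0
  · rw [pol_coeff_zero]; omega
  · have h := pol_coeff_succ (aP N U Y) (2 - 4 * w) ⟨j - 1, by omega⟩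
    have e : j - 1 + 1 = j := by omega
    simp only [e] at h
    rw [h]
    unfold aP
    rw [if_neg (c := (⟨j - 1, _⟩ : Fin (N + 1)) = Fin.last N)]
    · split_ifs <;> omega
    · intro h2
      have := congrArg Fin.val h2
      simp only [Fin.val_last] at this
      omega

theorem aP_le (N : ℕ) (U : Fin (N + 1) → ℕ) (Y : ℤ) (i : Fin (N + 1)) :
    |(aP N U Y i : ℝ)| ≤ 4 * (U i : ℝ) + 4 * |(Y : ℝ)| + 1 := by
  unfold aP
  push_cast
  refine (abs_add_le _ _).trans (add_le_add ((abs_add_le _ _).trans (add_le_add ?_ ?_)) ?_)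
  · rw [abs_mul, Nat.abs_cast, abs_of_pos (by norm_num : (0 : ℝ) < 4)]
  · split_ifs
    · rw [abs_mul, abs_of_pos (by norm_num : (0 : ℝ) < 4)]
    · rw [abs_zero]; positivity
  · split_ifs
    · rw [abs_one]
    · rw [abs_zero]; norm_num

theorem aP_aeval (N : ℕ) (U : Fin (N + 1) → ℕ) (Y c : ℤ) (ξ : ℝ) :
    aeval ξ (pol (aP N U Y) c) = 4 * (lf (N + 1) ξ U + Y * ξ) + ξ ^ (N + 1) + (c : ℝ) := by
  rw [pol_aeval]
  congr 1
  unfold aP lf
  have e : ∀ i : Fin (N + 1), ((4 * (U i : ℤ) + (if i = 0 then 4 * Y else 0) +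
      (if i = Fin.last N then 1 else 0) : ℤ) : ℝ) * ξ ^ ((i : ℕ) + 1) =
      4 * ((U i : ℝ) * ξ ^ ((i : ℕ) + 1)) + (if i = 0 then 4 * (Y : ℝ) * ξ ^ ((i : ℕ) + 1) else 0) +
      (if i = Fin.last N then ξ ^ ((i : ℕ) + 1) else 0) := by
    intro i
    push_cast
    split_ifs <;> ring
  rw [Finset.sum_congr rfl fun i _ => e i, Finset.sum_add_distrib, Finset.sum_add_distrib,
    ← Finset.mul_sum, Finset.sum_ite_eq' Finset.univ (0 : Fin (N + 1)),
    Finset.sum_ite_eq' Finset.univ (Fin.last N)]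
  simp only [Finset.mem_univ, if_true, Fin.val_last, Fin.val_zero]
  ring

theorem aP_der (N : ℕ) (U : Fin (N + 1) → ℕ) (Y c : ℤ) (ξ : ℝ) :
    aeval ξ (derivative (pol (aP N U Y) c)) =
      4 * (∑ i : Fin (N + 1), (U i : ℝ) * ((((i : ℕ) : ℝ) + 1) * ξ ^ (i : ℕ))) + 4 * Y +
        ((N : ℝ) + 1) * ξ ^ N := by
  rw [pol_aeval_der]
  unfold aP
  have e : ∀ i : Fin (N + 1), ((4 * (U i : ℤ) + (if i = 0 then 4 * Y else 0) +
      (if i = Fin.last N then 1 else 0) : ℤ) : ℝ) * ((((i : ℕ) : ℝ) + 1) * ξ ^ (i : ℕ)) =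
      4 * ((U i : ℝ) * ((((i : ℕ) : ℝ) + 1) * ξ ^ (i : ℕ))) +
      (if i = 0 then 4 * (Y : ℝ) * ((((i : ℕ) : ℝ) + 1) * ξ ^ (i : ℕ)) else 0) +
      (if i = Fin.last N then ((((i : ℕ) : ℝ) + 1) * ξ ^ (i : ℕ)) else 0) := by
    intro i
    push_cast
    split_ifs <;> ring
  rw [Finset.sum_congr rfl fun i _ => e i, Finset.sum_add_distrib, Finset.sum_add_distrib,
    ← Finset.mul_sum, Finset.sum_ite_eq' Finset.univ (0 : Fin (N + 1)),
    Finset.sum_ite_eq' Finset.univ (Fin.last N)]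
  simp only [Finset.mem_univ, if_true, Fin.val_last, Fin.val_zero]
  simp

theorem build (N : ℕ) (ξ : ℝ) : ∃ C : ℝ, 1 ≤ C ∧ ∀ M p k : ℕ, p.Prime → 1 ≤ k → 1 ≤ M →
    k + 1 ≤ p →
    (∀ P : ℤ[X], P ≠ 0 → P.natDegree ≤ N + 1 → (∀ i, |(P.coeff i : ℝ)| ≤ C * M) →
      1 / (p : ℝ) ≤ |aeval ξ P|) →
    p ≤ k * ((M + 1) ^ (N + 1) - 1) + 1 →
    ∃ P : ℤ[X], P.natDegree = N + 1 ∧ ¬ (2 : ℤ) ∣ P.coeff (N + 1) ∧
      (∀ j, j < N + 1 → (2 : ℤ) ∣ P.coeff j) ∧ ¬ (4 : ℤ) ∣ P.coeff 0 ∧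
      (∀ i, |(P.coeff i : ℝ)| ≤ C * (k * M)) ∧ |aeval ξ P| ≤ 4 * ((k + 1) / p) ∧
      (k * M : ℝ) ≤ aeval ξ (derivative P) := by
  set S : ℝ := ∑ i : Fin (N + 1), (((i : ℕ) : ℝ) + 1) * |ξ| ^ (i : ℕ) with hS
  set Z : ℝ := ∑ i : Fin (N + 1), |ξ| ^ ((i : ℕ) + 1) with hZ
  set E : ℝ := ((N : ℝ) + 1) * |ξ| ^ N with hE
  set F : ℝ := |ξ| ^ (N + 1) with hF
  have hS0 : 0 ≤ S := Finset.sum_nonneg fun i _ => by positivity
  have hZ0 : 0 ≤ Z := Finset.sum_nonneg fun i _ => by positivity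
  have hE0 : 0 ≤ E := by positivity
  have hF0 : 0 ≤ F := by positivity
  have hξ0 : 0 ≤ |ξ| := abs_nonneg _
  set cw : ℝ := Z + F + 2 + (S + 2 + E) * |ξ| + 1 with hcw
  have hcw0 : 0 ≤ cw := by positivity
  refine ⟨10 + 4 * (S + 2 + E) + 4 * cw + Z, by linarith, ?_⟩
  set C : ℝ := 10 + 4 * (S + 2 + E) + 4 * cw + Z with hC
  intro M p k hp hk hM hkp hsep hpk
  have hMr : (1 : ℝ) ≤ M := by exact_mod_cast hM
  have hkr : (1 : ℝ) ≤ k := by exact_mod_cast hk
  have hp0 : (0 : ℝ) < p := by exact_mod_cast hp.pos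
  have hp1 : 1 / (p : ℝ) ≤ 1 := by
    rw [div_le_one hp0]
    exact_mod_cast hp.one_lt.le
  set x : ℝ := (k : ℝ) * M with hx
  have hx1 : 1 ≤ x := by rw [hx]; nlinarith
  set Y : ℤ := ⌈(S + 1) * x + E⌉ with hY
  have hY1 : (S + 1) * x + E ≤ (Y : ℝ) := Int.le_ceil _
  have hY2 : (Y : ℝ) ≤ (S + 2 + E) * x := by
    have := (Int.ceil_lt_add_one ((S + 1) * x + E)).le
    rw [← hY] at this
    nlinarith
  have hY0 : 0 ≤ (Y : ℝ) := by
    have : 0 ≤ (S + 1) * x + E := by positivity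
    linarith
  have hlf : ∀ (B : ℝ) (u : Fin (N + 1) → ℕ), (∀ i, (u i : ℝ) ≤ B) → |lf (N + 1) ξ u| ≤ B * Z := by
    intro B u hu
    unfold lf
    refine (Finset.abs_sum_le_sum_abs _ _).trans ?_
    rw [hZ, Finset.mul_sum]
    refine Finset.sum_le_sum fun i _ => ?_
    rw [abs_mul, abs_pow, Nat.abs_cast]
    exact mul_le_mul_of_nonneg_right (hu i) (by positivity)
  have hsep' : ∀ u v : Fin (N + 1) → ℕ, (∀ i, u i ≤ M) → (∀ i, v i ≤ M) → u ≠ v → ∀ w : ℤ,
      1 / (p : ℝ) ≤ |lf (N + 1) ξ u - lf (N + 1) ξ v - w| := by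
    intro u v hu hv huv w
    by_contra hlt
    push Not at hlt
    have hw : |(w : ℝ)| ≤ C * M := by
      have h1 : |lf (N + 1) ξ u - lf (N + 1) ξ v| ≤ M * Z := by
        unfold lf
        rw [← Finset.sum_sub_distrib]
        refine (Finset.abs_sum_le_sum_abs _ _).trans ?_
        rw [hZ, Finset.mul_sum]
        refine Finset.sum_le_sum fun i _ => ?_
        rw [← sub_mul, abs_mul, abs_pow]
        apply mul_le_mul_of_nonneg_right _ (by positivity)
        have h2 : (u i : ℝ) ≤ M := by exact_mod_cast hu i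
        have h3 : (v i : ℝ) ≤ M := by exact_mod_cast hv i
        have h4 : (0 : ℝ) ≤ u i := Nat.cast_nonneg _
        have h5 : (0 : ℝ) ≤ v i := Nat.cast_nonneg _
        rw [abs_le]
        constructor <;> linarith
      have h2 : |(w : ℝ)| ≤ M * Z + 1 := by
        have h3 := abs_sub_abs_le_abs_sub (w : ℝ) (lf (N + 1) ξ u - lf (N + 1) ξ v)
        rw [abs_sub_comm (w : ℝ) (lf (N + 1) ξ u - lf (N + 1) ξ v)] at h3
        linarith
      have h3 : 0 ≤ (M : ℝ) * Z := by positivity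
      rw [hC]
      nlinarith
    have h := hsep (pol (fun i => ((u i : ℤ) - v i)) (-w)) ?_ (pol_natDegree_le _ _) ?_
    · rw [pol_aeval] at h
      have e : ∑ i : Fin (N + 1), (((u i : ℤ) - v i : ℤ) : ℝ) * ξ ^ ((i : ℕ) + 1) + ((-w : ℤ) : ℝ) =
          lf (N + 1) ξ u - lf (N + 1) ξ v - w := by
        unfold lf
        rw [← Finset.sum_sub_distrib]
        push_cast
        rw [← sub_eq_add_neg]
        congr 1
        refine Finset.sum_congr rfl fun i _ => ?_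
        ring
      rw [e] at h
      linarith
    · intro h0
      apply huv
      funext i
      have h1 := pol_coeff_succ (fun i => ((u i : ℤ) - v i)) (-w) i
      rw [h0, coeff_zero] at h1
      have : (u i : ℤ) = v i := by linarith
      exact_mod_cast this
    · apply pol_coeff_le
      · intro i
        have h2 : (u i : ℝ) ≤ M := by exact_mod_cast hu i
        have h3 : (v i : ℝ) ≤ M := by exact_mod_cast hv i
        have h4 : (0 : ℝ) ≤ u i := Nat.cast_nonneg _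
        have h5 : (0 : ℝ) ≤ v i := Nat.cast_nonneg _
        push_cast
        have h6 : |(u i : ℝ) - v i| ≤ M := by
          rw [abs_le]
          constructor <;> linarith
        have h7 : (M : ℝ) ≤ C * M := by
          have : 1 ≤ C := by rw [hC]; linarith
          nlinarith
        linarith
      · push_cast
        rw [abs_neg]; exact hw
  obtain ⟨U, hU, w, hw⟩ := inh (N + 1) (by omega) ξ M p k hp hk hsep' hpk
    (-(ξ ^ (N + 1) + 2) / 4 - Y * ξ)
  have hUx : ∀ i, (U i : ℝ) ≤ x := fun i => by rw [hx]; exact_mod_cast hU i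
  have hkp' : ((k : ℝ) + 1) / p ≤ 1 := by
    rw [div_le_one hp0]; exact_mod_cast hkp
  have hwx : |(w : ℝ)| ≤ x * cw := by
    have h1 := hlf x U hUx
    have h2 : |-(ξ ^ (N + 1) + 2) / 4 - Y * ξ| ≤ (F + 2) + (S + 2 + E) * x * |ξ| := by
      refine (abs_sub _ _).trans ?_
      have h3 : |-(ξ ^ (N + 1) + 2) / 4| ≤ F + 2 := by
        rw [abs_div, abs_neg]
        have h4 : |ξ ^ (N + 1) + 2| ≤ F + 2 := by
          refine (abs_add_le _ _).trans ?_
          rw [abs_pow, ← hF, abs_of_pos (by norm_num : (0 : ℝ) < 2)]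
        have h5 : |(4 : ℝ)| = 4 := by norm_num
        rw [h5, div_le_iff₀ (by norm_num)]
        linarith
      have h4 : |(Y : ℝ) * ξ| ≤ (S + 2 + E) * x * |ξ| := by
        rw [abs_mul, abs_of_nonneg hY0]
        exact mul_le_mul_of_nonneg_right hY2 hξ0
      linarith
    have h3 : |(w : ℝ)| ≤ x * Z + ((F + 2) + (S + 2 + E) * x * |ξ|) + 1 := by
      have h4 : (w : ℝ) = lf (N + 1) ξ U - (-(ξ ^ (N + 1) + 2) / 4 - Y * ξ) -
        (lf (N + 1) ξ U - w - (-(ξ ^ (N + 1) + 2) / 4 - Y * ξ)) := by ring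
      rw [h4]
      refine (abs_sub _ _).trans ?_
      have h5 := abs_sub (lf (N + 1) ξ U) (-(ξ ^ (N + 1) + 2) / 4 - Y * ξ)
      linarith
    rw [hcw]
    nlinarith
  refine ⟨pol (aP N U Y) (2 - 4 * w), aP_natDegree N U Y _, aP_odd N U Y _, aP_even N U Y w, ?_,
    ?_, ?_, ?_⟩
  · rw [pol_coeff_zero]; omega
  · apply pol_coeff_le
    · intro i
      have h1 := aP_le N U Y i
      have h2 := hUx i
      have h3 : |((Y : ℤ) : ℝ)| = Y := abs_of_nonneg hY0
      rw [h3] at h1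
      have h4 : (5 + 4 * (S + 2 + E)) * x ≤ C * x :=
        mul_le_mul_of_nonneg_right (by linarith) (by linarith)
      nlinarith
    · push_cast
      refine (abs_sub _ _).trans ?_
      rw [abs_mul, abs_of_pos (by norm_num : (0 : ℝ) < 2), abs_of_pos (by norm_num : (0 : ℝ) < 4)]
      have h4 : (2 + 4 * cw) * x ≤ C * x :=
        mul_le_mul_of_nonneg_right (by linarith) (by linarith)
      nlinarith
  · rw [aP_aeval]
    have e : 4 * (lf (N + 1) ξ U + Y * ξ) + ξ ^ (N + 1) + ((2 - 4 * w : ℤ) : ℝ) =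
        4 * (lf (N + 1) ξ U - w - (-(ξ ^ (N + 1) + 2) / 4 - Y * ξ)) := by
      push_cast; ring
    rw [e, abs_mul, abs_of_pos (by norm_num : (0 : ℝ) < 4)]
    exact mul_le_mul_of_nonneg_left hw (by norm_num)
  · rw [aP_der]
    have h1 : |∑ i : Fin (N + 1), (U i : ℝ) * ((((i : ℕ) : ℝ) + 1) * ξ ^ (i : ℕ))| ≤ x * S := by
      refine (Finset.abs_sum_le_sum_abs _ _).trans ?_
      rw [hS, Finset.mul_sum]
      refine Finset.sum_le_sum fun i _ => ?_
      rw [abs_mul, abs_mul, abs_pow, Nat.abs_cast, abs_of_nonneg (by positivity :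
        (0 : ℝ) ≤ ((i : ℕ) : ℝ) + 1)]
      exact mul_le_mul_of_nonneg_right (hUx i) (by positivity)
    have h2 : |((N : ℝ) + 1) * ξ ^ N| ≤ E := by
      rw [abs_mul, abs_pow, abs_of_nonneg (by positivity : (0 : ℝ) ≤ (N : ℝ) + 1)]
    have h3 := neg_abs_le (∑ i : Fin (N + 1), (U i : ℝ) * ((((i : ℕ) : ℝ) + 1) * ξ ^ (i : ℕ)))
    have h4 := neg_abs_le (((N : ℝ) + 1) * ξ ^ N)
    nlinarith

end Pool.Agent.TH970.UM
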