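import Mathlib

/-! A real root near a point with small value and large derivative. -/

set_option autoImplicit false

open Polynomial Finset

namespace Pool.Agent.TH970.UM

theorem mono (ξ : ℝ) (i : ℕ) : ∃ c : ℝ, 0 ≤ c ∧ ∀ h : ℝ, |h| ≤ 1 →
    |(ξ + h) ^ (i + 1) - ξ ^ (i + 1) - ((i : ℝ) + 1) * ξ ^ i * h| ≤ c * h ^ 2 := by
  induction i with
  | zero => exact ⟨0, le_rfl, fun h _ => by simp⟩
  | succ i ih =>
    obtain ⟨c, hc, h⟩ := ih
    refine ⟨(|ξ| + 1) * c + ((i : ℝ) + 1) * |ξ| ^ i, by positivity, fun y hy => ?_⟩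
    have e : (ξ + y) ^ (i + 1 + 1) - ξ ^ (i + 1 + 1) - (((i + 1 : ℕ) : ℝ) + 1) * ξ ^ (i + 1) * y =
        (ξ + y) * ((ξ + y) ^ (i + 1) - ξ ^ (i + 1) - ((i : ℝ) + 1) * ξ ^ i * y) +
        ((i : ℝ) + 1) * ξ ^ i * y ^ 2 := by
      push_cast; ring
    rw [e]
    refine (abs_add_le _ _).trans ?_
    rw [abs_mul, abs_mul, abs_mul, abs_pow, abs_of_nonneg (by positivity : (0 : ℝ) ≤ (i : ℝ) + 1),
      abs_of_nonneg (sq_nonneg y)]
    have h1 : |ξ + y| ≤ |ξ| + 1 := (abs_add_le _ _).trans (by linarith)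
    have h2 := mul_le_mul h1 (h y hy) (abs_nonneg _) (by positivity)
    linarith

theorem mono' (ξ : ℝ) (i : ℕ) : ∃ c : ℝ, 0 ≤ c ∧ ∀ h : ℝ, |h| ≤ 1 →
    |(ξ + h) ^ i - ξ ^ i - (i : ℝ) * ξ ^ (i - 1) * h| ≤ c * h ^ 2 := by
  cases i with
  | zero => exact ⟨0, le_rfl, fun h _ => by simp⟩
  | succ i =>
    obtain ⟨c, hc, h⟩ := mono ξ i
    refine ⟨c, hc, fun y hy => ?_⟩
    have := h y hy
    simpa using this

theorem taylor2 (n : ℕ) (ξ : ℝ) : ∃ C : ℝ, 1 ≤ C ∧ ∀ (P : ℤ[X]) (B h : ℝ), P.natDegree ≤ n →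
    (∀ i, |(P.coeff i : ℝ)| ≤ B) → |h| ≤ 1 →
    |aeval (ξ + h) P - aeval ξ P - aeval ξ (derivative P) * h| ≤ C * B * h ^ 2 := by
  choose c hc hm using mono' ξ
  refine ⟨1 + ∑ i ∈ range (n + 1), c i, by
    have := Finset.sum_nonneg (s := range (n + 1)) (f := c) fun i _ => hc i
    linarith, ?_⟩
  intro P B h hP hB hh
  have hB0 : 0 ≤ B := (abs_nonneg _).trans (hB 0)
  have hPs := as_sum_range_C_mul_X_pow' P (n := n + 1) (by omega)
  have e1 : ∀ x : ℝ, aeval x P = ∑ i ∈ range (n + 1), (P.coeff i : ℝ) * x ^ i := by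
    intro x
    conv_lhs => rw [hPs]
    rw [map_sum]
    refine Finset.sum_congr rfl fun i _ => ?_
    simp [map_mul]
  have e2 : aeval ξ (derivative P) = ∑ i ∈ range (n + 1), (P.coeff i : ℝ) * (i * ξ ^ (i - 1)) := by
    conv_lhs => rw [hPs]
    rw [derivative_sum, map_sum]
    refine Finset.sum_congr rfl fun i _ => ?_
    rw [derivative_C_mul_X_pow]
    simp [map_mul]
    ring
  have e3 : aeval (ξ + h) P - aeval ξ P - aeval ξ (derivative P) * h =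
      ∑ i ∈ range (n + 1), (P.coeff i : ℝ) * ((ξ + h) ^ i - ξ ^ i - (i : ℝ) * ξ ^ (i - 1) * h) := by
    rw [e1, e1, e2, Finset.sum_mul, ← Finset.sum_sub_distrib, ← Finset.sum_sub_distrib]
    refine Finset.sum_congr rfl fun i _ => ?_
    ring
  rw [e3]
  refine (Finset.abs_sum_le_sum_abs _ _).trans ?_
  have h4 : ∑ i ∈ range (n + 1), |(P.coeff i : ℝ) * ((ξ + h) ^ i - ξ ^ i -
      (i : ℝ) * ξ ^ (i - 1) * h)| ≤ ∑ i ∈ range (n + 1), c i * (B * h ^ 2) := by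
    refine Finset.sum_le_sum fun i _ => ?_
    rw [abs_mul]
    calc |(P.coeff i : ℝ)| * |(ξ + h) ^ i - ξ ^ i - (i : ℝ) * ξ ^ (i - 1) * h|
        ≤ B * (c i * h ^ 2) := mul_le_mul (hB i) (hm i h hh) (abs_nonneg _) hB0
      _ = c i * (B * h ^ 2) := by ring
  refine h4.trans ?_
  rw [← Finset.sum_mul]
  have h5 : 0 ≤ B * h ^ 2 := by positivity
  nlinarith

theorem root_near (n : ℕ) (ξ : ℝ) : ∃ C : ℝ, 1 ≤ C ∧ ∀ (P : ℤ[X]) (B : ℝ), P.natDegree ≤ n →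
    (∀ i, |(P.coeff i : ℝ)| ≤ B) → 0 < aeval ξ (derivative P) →
    2 * |aeval ξ P| ≤ aeval ξ (derivative P) →
    4 * (C * B) * |aeval ξ P| ≤ (aeval ξ (derivative P)) ^ 2 →
    ∃ α : ℝ, aeval α P = 0 ∧ |ξ - α| ≤ 2 * |aeval ξ P| / aeval ξ (derivative P) := by
  obtain ⟨C, hC, ht⟩ := taylor2 n ξ
  refine ⟨C, hC, fun P B hP hB hD h2 h4 => ?_⟩
  set v := aeval ξ P with hv
  set D := aeval ξ (derivative P) with hDd
  set r := 2 * |v| / D with hr
  have hr0 : 0 ≤ r := by positivity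
  have hr1 : r ≤ 1 := by rw [hr, div_le_one hD]; exact h2
  have hDr : D * r = 2 * |v| := by rw [hr]; field_simp
  have hq : C * B * r ^ 2 ≤ |v| := by
    have e : r ^ 2 = 4 * |v| ^ 2 / D ^ 2 := by rw [hr]; ring
    rw [e, ← mul_div_assoc, div_le_iff₀ (by positivity)]
    have := mul_le_mul_of_nonneg_right h4 (abs_nonneg v)
    nlinarith
  have hB0 : 0 ≤ B := (abs_nonneg _).trans (hB 0)
  have p1 := ht P B r hP hB (by rw [abs_of_nonneg hr0]; exact hr1)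
  have p2 := ht P B (-r) hP hB (by rw [abs_neg, abs_of_nonneg hr0]; exact hr1)
  rw [← hv, ← hDd] at p1 p2
  have q1 := (abs_le.1 p1).1
  have q2 := (abs_le.1 p2).2
  have hneg : (-r) ^ 2 = r ^ 2 := by ring
  rw [hneg] at q2
  have a1 := neg_abs_le v
  have a2 := le_abs_self v
  have u1 : 0 ≤ aeval (ξ + r) P := by nlinarith
  have u2 : aeval (ξ + -r) P ≤ 0 := by nlinarith
  have hcont : Continuous fun x : ℝ => aeval x P := Polynomial.continuous_aeval P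
  have hle : ξ + -r ≤ ξ + r := by linarith
  obtain ⟨α, hα, hα0⟩ := intermediate_value_Icc hle hcont.continuousOn
    (show (0 : ℝ) ∈ Set.Icc (aeval (ξ + -r) P) (aeval (ξ + r) P) from ⟨u2, u1⟩)
  refine ⟨α, hα0, ?_⟩
  rw [abs_le]
  constructor <;> linarith [hα.1, hα.2]

end Pool.Agent.TH970.UM
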