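import Pool.Agent.TH970.UM.Bld
import Pool.Agent.TH970.UM.Root
import Pool.Agent.W71.Expo

/-! Approximation by real algebraic numbers of exact degree at numbers with regular uniform
exponent. -/

set_option autoImplicit false

open Polynomial

namespace Pool.Agent.TH970.UM

theorem eis (n : ℕ) (hn : 1 ≤ n) (P : ℤ[X]) (hd : P.natDegree = n) (h2 : ¬ (2 : ℤ) ∣ P.coeff n)
    (hj : ∀ j, j < n → (2 : ℤ) ∣ P.coeff j) (h4 : ¬ (4 : ℤ) ∣ P.coeff 0) :
    Irreducible P.primPart := by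
  have hP := eq_C_content_mul_primPart P
  have hco : ∀ i, P.coeff i = P.content * P.primPart.coeff i := by
    intro i
    conv_lhs => rw [hP]
    rw [coeff_C_mul]
  have hdeg : P.primPart.natDegree = n := by rw [natDegree_primPart, hd]
  have hodd : ¬ (2 : ℤ) ∣ P.content := by
    intro h
    apply h2
    rw [hco]
    exact h.mul_right _
  have hp2 : Prime (2 : ℤ) := Int.prime_two
  have hI : (Ideal.span {(2 : ℤ)}).IsPrime := (Ideal.span_singleton_prime (by norm_num)).2 hp2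
  have hE : P.primPart.IsEisensteinAt (Ideal.span {(2 : ℤ)}) := by
    refine ⟨?_, ?_, ?_⟩
    · rw [Ideal.mem_span_singleton, leadingCoeff, hdeg]
      intro h
      apply h2
      rw [hco]
      exact h.mul_left _
    · intro i hi
      rw [Ideal.mem_span_singleton]
      have h1 := hj i (by omega)
      rw [hco] at h1
      exact (hp2.dvd_or_dvd h1).resolve_left hodd
    · rw [Ideal.span_singleton_pow, Ideal.mem_span_singleton]
      intro h
      apply h4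
      rw [hco]
      exact Dvd.dvd.mul_left (by simpa using h) _
  exact hE.irreducible hI (isPrimitive_primPart P) (by omega)

theorem exact_approx (N : ℕ) (ξ : ℝ) (hξ : Transcendental ℤ ξ)
    (hup : ∀ v : ℝ, (N : ℝ) + 1 < v → ∀ H0 : ℝ, ∃ H : ℝ, H0 ≤ H ∧ 1 ≤ H ∧ ∀ P : ℤ[X], P ≠ 0 →
      P.natDegree ≤ N + 1 → (∀ i, |(P.coeff i : ℝ)| ≤ H) → aeval ξ P ≠ 0 →
      H ^ (-v) < |aeval ξ P|)
    (w : ℝ) (hw0 : 0 ≤ w) (hw : w < N + 1) (η : ℝ) (hη : 0 < η) :
    ∃ α : ℝ, ∃ P : ℤ[X], Irreducible P ∧ P.natDegree = N + 1 ∧ aeval α P = 0 ∧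
      |ξ - α| < η ∧ |ξ - α| ≤ ((Pool.Agent.W71.hgt P : ℕ) : ℝ) ^ (-w - 1) := by
  obtain ⟨C, hC, hb⟩ := build N ξ
  obtain ⟨C2, hC2, hr⟩ := root_near (N + 1) ξ
  have hne : ∀ P : ℤ[X], P ≠ 0 → aeval ξ P ≠ 0 := fun P hP h => hξ ⟨P, hP, h⟩
  have hN0 : (0 : ℝ) ≤ N := Nat.cast_nonneg N
  -- the parameter ε
  obtain ⟨ε, hε, hεw⟩ : ∃ ε : ℝ, 0 < ε ∧ (1 + ε) * (w + 1) < N + 2 := by
    refine ⟨(N + 1 - w) / (2 * (w + 1)), by apply div_pos <;> linarith, ?_⟩
    have h1 : (1 + (N + 1 - w) / (2 * (w + 1))) * (w + 1) = (w + 1) + (N + 1 - w) / 2 := by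
      field_simp
    rw [h1]; linarith
  set e : ℝ := (N + 2) - (1 + ε) * (w + 1) with he
  have he0 : 0 < e := by rw [he]; linarith
  set K : ℝ := (2 * C) ^ (N + 1) with hK
  have hK1 : 1 ≤ K := one_le_pow₀ (by linarith)
  set K1 : ℝ := 4 * K + 1 with hK1d
  set K2 : ℝ := 4 * (K + 2) with hK2d
  set K3 : ℝ := 4 * C * K2 with hK3d
  have hK10 : 0 < K1 := by positivity
  have hK20 : 0 < K2 := by positivity
  have hK30 : 0 < K3 := by positivity
  obtain ⟨T, hT⟩ : ∃ T : ℝ, ∀ H : ℝ, T ≤ H → K3 * K1 ^ (w + 1) ≤ H ^ e :=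
    Filter.eventually_atTop.1 ((tendsto_rpow_atTop he0).eventually_ge_atTop _)
  set H0 : ℝ := T ⊔ (4 * C) ⊔ (8 * C2 * C ^ 2 * K2) ⊔ (K3 / η + 1) ⊔ 4 ⊔ (4 * C * K2) with hH0
  obtain ⟨H, hH, hH1, hHP⟩ := hup (N + 1 + ε) (by linarith) H0
  have g1 : T ≤ H := le_trans (by simp [hH0]) hH
  have g2 : 4 * C ≤ H := le_trans (by simp [hH0]) hH
  have g3 : 8 * C2 * C ^ 2 * K2 ≤ H := le_trans (by simp [hH0]) hH
  have g4 : K3 / η + 1 ≤ H := le_trans (by simp [hH0]) hH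
  have g5 : 4 ≤ H := le_trans (by simp [hH0]) hH
  have g6 : 4 * C * K2 ≤ H := le_trans (by simp [hH0]) hH
  have hH0' : 0 < H := by linarith
  have hCp : 0 < C := by linarith
  -- M
  set M : ℕ := ⌊H / C⌋₊ with hM
  have hM1 : (M : ℝ) ≤ H / C := Nat.floor_le (by positivity)
  have hM2 : H / (2 * C) ≤ M := by
    have h1 := Nat.lt_floor_add_one (H / C)
    rw [← hM] at h1
    have h2 : H / (2 * C) = H / C / 2 := by field_simp
    have h3 : 2 ≤ H / C := by rw [le_div_iff₀ hCp]; linarith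
    rw [h2]; linarith
  have hM3 : 2 ≤ M := by
    rw [hM, Nat.le_floor_iff (by positivity), le_div_iff₀ hCp]
    push_cast; linarith
  have hMr : (2 : ℝ) ≤ M := by exact_mod_cast hM3
  -- the prime
  set m0 : ℕ := ⌈H ^ ((N : ℝ) + 1 + ε)⌉₊ with hm0
  have hHe : H ≤ H ^ ((N : ℝ) + 1 + ε) := by
    have := Real.rpow_le_rpow_of_exponent_le hH1 (by linarith : (1 : ℝ) ≤ (N : ℝ) + 1 + ε)
    rwa [Real.rpow_one] at this
  have hm1 : H ^ ((N : ℝ) + 1 + ε) ≤ m0 := Nat.le_ceil _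
  have hm2 : (m0 : ℝ) < H ^ ((N : ℝ) + 1 + ε) + 1 := Nat.ceil_lt_add_one (by positivity)
  have hm00 : m0 ≠ 0 := by
    intro h
    rw [h] at hm1
    push_cast at hm1
    linarith
  obtain ⟨p, hp, hp1, hp2⟩ := Nat.exists_prime_lt_and_le_two_mul m0 hm00
  have hp1r : (m0 : ℝ) < p := by exact_mod_cast hp1
  have hp2r : (p : ℝ) ≤ 2 * m0 := by exact_mod_cast hp2
  have hpH : H ^ ((N : ℝ) + 1 + ε) ≤ p := by linarith
  have hpH4 : (p : ℝ) ≤ 4 * H ^ ((N : ℝ) + 1 + ε) := by linarith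
  have hp0 : (0 : ℝ) < p := by linarith
  have hp4 : 4 ≤ p := by
    have : (4 : ℝ) ≤ p := by linarith
    exact_mod_cast this
  -- k
  set k : ℕ := p / M ^ (N + 1) + 1 with hk
  have hMN2 : 2 ≤ M ^ (N + 1) := le_trans hM3 (Nat.le_self_pow (by omega) M)
  have hkp : k + 1 ≤ p := by
    have h1 : p / M ^ (N + 1) ≤ p / 2 := Nat.div_le_div_left hMN2 (by norm_num)
    omega
  have hpk : p ≤ k * ((M + 1) ^ (N + 1) - 1) + 1 := by
    have h1 : p < M ^ (N + 1) * (p / M ^ (N + 1) + 1) := Nat.lt_mul_div_succ p (by positivity)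
    have h2 : M ^ (N + 1) + 1 ≤ (M + 1) ^ (N + 1) := by
      have := Nat.pow_lt_pow_left (Nat.lt_succ_self M) (Nat.succ_ne_zero N)
      exact this
    have h3 : M ^ (N + 1) ≤ (M + 1) ^ (N + 1) - 1 := by omega
    have h4 := Nat.mul_le_mul_left k h3
    rw [← hk, mul_comm] at h1
    omega
  obtain ⟨P, hPd, hPo, hPe, hP4, hPc, hPv, hPD⟩ := hb M p k hp (by rw [hk]; exact Nat.le_add_left 1 _) (by omega) hkp (by
    intro P hP0 hPd hPc
    have h1 := hHP P hP0 hPd (fun i => (hPc i).trans (by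
      rw [le_div_iff₀ hCp] at hM1; linarith)) (hne P hP0)
    refine le_trans ?_ h1.le
    rw [Real.rpow_neg hH0'.le, one_div]
    exact inv_anti₀ (by positivity) hpH) hpk
  set Q := P.primPart with hQ
  have hQirr : Irreducible Q := eis (N + 1) (by omega) P hPd hPo hPe hP4
  have hQd : Q.natDegree = N + 1 := by rw [hQ, natDegree_primPart, hPd]
  -- real estimates
  have hHN : H ^ ((N : ℝ) + 1) = H ^ (N + 1) := by
    rw [← Real.rpow_natCast]; push_cast; rfl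
  have hMN : (M : ℝ) ^ (N + 1) * K ≥ H ^ (N + 1) := by
    rw [hK, ← mul_pow]
    apply pow_le_pow_left₀ hH0'.le
    rw [div_le_iff₀ (by positivity)] at hM2
    exact hM2
  have hMNp : (0 : ℝ) < (M : ℝ) ^ (N + 1) := by positivity
  have hkr : (k : ℝ) ≤ p / (M : ℝ) ^ (N + 1) + 1 := by
    rw [hk]; push_cast
    have := @Nat.cast_div_le ℝ _ _ _ p (M ^ (N + 1))
    push_cast at this
    linarith
  have hHε1 : 1 ≤ H ^ ε := Real.one_le_rpow hH1 hε.le
  have hsplit : H ^ ((N : ℝ) + 1 + ε) = H ^ (N + 1) * H ^ ε := by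
    rw [Real.rpow_add hH0', hHN]
  have hdiv : (p : ℝ) / (M : ℝ) ^ (N + 1) ≤ 4 * K * H ^ ε := by
    rw [div_le_iff₀ hMNp]
    have : H ^ (N + 1) * H ^ ε ≤ (M : ℝ) ^ (N + 1) * K * H ^ ε :=
      mul_le_mul_of_nonneg_right hMN (by positivity)
    rw [hsplit] at hpH4
    nlinarith
  have hkε : (k : ℝ) ≤ K1 * H ^ ε := by
    rw [hK1d]; nlinarith
  have hHn0 : (0 : ℝ) < H ^ (N + 1) := by positivity
  have hval : |aeval ξ P| ≤ K2 / H ^ (N + 1) := by
    refine hPv.trans ?_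
    have h1 : ((k : ℝ) + 1) / p ≤ (K + 2) / H ^ (N + 1) := by
      rw [div_le_div_iff₀ hp0 hHn0]
      have h2 : (p : ℝ) / (M : ℝ) ^ (N + 1) * H ^ (N + 1) ≤ p * K := by
        rw [div_mul_eq_mul_div, div_le_iff₀ hMNp]
        nlinarith
      have h3 : H ^ (N + 1) ≤ p := by
        have : H ^ (N + 1) * 1 ≤ H ^ (N + 1) * H ^ ε := mul_le_mul_of_nonneg_left hHε1 hHn0.le
        rw [hsplit] at hpH
        linarith
      nlinarith
    calc 4 * (((k : ℝ) + 1) / p) ≤ 4 * ((K + 2) / H ^ (N + 1)) := by linarith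
      _ = K2 / H ^ (N + 1) := by rw [hK2d]; ring
  have hkM : (M : ℝ) ≤ k * M := by
    have : (1 : ℝ) ≤ k := by rw [hk]; push_cast; linarith [Nat.cast_nonneg (α := ℝ) (p / M ^ (N + 1))]
    nlinarith
  set D := aeval ξ (derivative P) with hD
  have hDH : H / (2 * C) ≤ D := by linarith
  have hD0 : 0 < D := lt_of_lt_of_le (by positivity) hDH
  have hHn1 : (1 : ℝ) ≤ H ^ (N + 1) := one_le_pow₀ hH1
  have hvalK : |aeval ξ P| ≤ K2 := hval.trans (div_le_self hK20.le hHn1)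
  have hDH' : H ≤ D * (2 * C) := by rwa [div_le_iff₀ (by positivity)] at hDH
  obtain ⟨α, hα, hαd⟩ := hr P (C * (k * M)) hPd.le hPc hD0
    (by
      have h1 : 4 * C * K2 ≤ D * (2 * C) := by linarith
      have h2 : 2 * K2 ≤ D := by
        by_contra hlt
        push Not at hlt
        have := mul_lt_mul_of_pos_right hlt (by positivity : 0 < 2 * C)
        linarith
      linarith)
    (by
      have h1 : 4 * C2 * C * K2 * (2 * C) ≤ D * (2 * C) := by
        calc 4 * C2 * C * K2 * (2 * C) = 8 * C2 * C ^ 2 * K2 := by ring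
          _ ≤ D * (2 * C) := by linarith
      have h2 : 4 * C2 * C * K2 ≤ D := le_of_mul_le_mul_right h1 (by positivity)
      calc 4 * (C2 * (C * (k * M))) * |aeval ξ P| ≤ 4 * (C2 * (C * D)) * K2 := by gcongr
        _ = (4 * C2 * C * K2) * D := by ring
        _ ≤ D * D := mul_le_mul_of_nonneg_right h2 hD0.le
        _ = D ^ 2 := by ring)
  have hdist : |ξ - α| ≤ K3 / H ^ (N + 2) := by
    refine hαd.trans ?_
    rw [div_le_div_iff₀ hD0 (by positivity)]
    rw [le_div_iff₀ hHn0] at hval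
    calc 2 * |aeval ξ P| * H ^ (N + 2) = 2 * (|aeval ξ P| * H ^ (N + 1)) * H := by ring
      _ ≤ 2 * K2 * H := by gcongr
      _ ≤ 2 * K2 * (D * (2 * C)) := by gcongr
      _ = K3 * D := by rw [hK3d]; ring
  have hP0 : P ≠ 0 := by
    rintro rfl
    rw [natDegree_zero] at hPd; omega
  have hc0 : P.content ≠ 0 := by
    intro h0
    rw [content_eq_zero_iff] at h0; exact hP0 h0
  have hc1 : (1 : ℝ) ≤ |(P.content : ℝ)| := by
    exact_mod_cast Int.one_le_abs hc0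
  have hPe' := eq_C_content_mul_primPart P
  have hαQ : aeval α Q = 0 := by
    rw [hPe', map_mul, aeval_C] at hα
    rcases mul_eq_zero.1 hα with h | h
    · exfalso; apply hc0
      simpa using h
    · exact h
  have hQc : ∀ i, |(Q.coeff i : ℝ)| ≤ K1 * H ^ (1 + ε) := by
    intro i
    have h1 : P.coeff i = P.content * Q.coeff i := by
      conv_lhs => rw [hPe']
      rw [coeff_C_mul]
    have h2 : |(Q.coeff i : ℝ)| ≤ |(P.coeff i : ℝ)| := by
      rw [h1]
      push_cast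
      rw [abs_mul]
      have := abs_nonneg (Q.coeff i : ℝ)
      nlinarith
    refine h2.trans ((hPc i).trans ?_)
    have h3 : (M : ℝ) * C ≤ H := by rwa [le_div_iff₀ hCp] at hM1
    have h4 : H ^ (1 + ε) = H * H ^ ε := by rw [Real.rpow_add hH0', Real.rpow_one]
    rw [h4]
    calc C * (k * M) = k * (M * C) := by ring
      _ ≤ (K1 * H ^ ε) * H := mul_le_mul hkε h3 (by positivity) (by positivity)
      _ = K1 * (H * H ^ ε) := by ring
  have hhgt : ((Pool.Agent.W71.hgt Q : ℕ) : ℝ) ≤ K1 * H ^ (1 + ε) :=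
    Pool.Agent.W71.hgt_le_real _ (by positivity) hQc
  have hhgt1 : (1 : ℝ) ≤ ((Pool.Agent.W71.hgt Q : ℕ) : ℝ) := by
    exact_mod_cast Pool.Agent.W71.hgt_pos hQirr.ne_zero
  refine ⟨α, Q, hQirr, hQd, hαQ, ?_, ?_⟩
  · refine lt_of_le_of_lt hdist ?_
    rw [div_lt_iff₀ (by positivity)]
    have h1 : K3 / η < H := by linarith
    rw [div_lt_iff₀ hη] at h1
    have h2 : H ≤ H ^ (N + 2) := le_self_pow₀ hH1 (by omega)
    nlinarith
  · refine hdist.trans ?_
    have h1 : (K1 * H ^ (1 + ε)) ^ (-w - 1) ≤ ((Pool.Agent.W71.hgt Q : ℕ) : ℝ) ^ (-w - 1) :=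
      Real.rpow_le_rpow_of_nonpos (by linarith) hhgt (by linarith)
    refine le_trans ?_ h1
    have e1 : (K1 * H ^ (1 + ε)) ^ (-w - 1) = (K1 ^ (w + 1))⁻¹ * H ^ (-((1 + ε) * (w + 1))) := by
      rw [Real.mul_rpow hK10.le (by positivity), ← Real.rpow_mul hH0'.le, ← Real.rpow_neg hK10.le]
      congr 2 <;> ring
    rw [e1]
    have hK1w : 0 < K1 ^ (w + 1) := Real.rpow_pos_of_pos hK10 _
    have hT' := hT H g1
    have e2 : H ^ (-((1 + ε) * (w + 1))) = H ^ e / H ^ (N + 2) := by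
      have : H ^ (N + 2) = H ^ ((N : ℝ) + 2) := by
        rw [← Real.rpow_natCast]; push_cast; rfl
      rw [this, ← Real.rpow_sub hH0']
      congr 1
      rw [he]; ring
    rw [e2, inv_mul_eq_div, div_div, div_le_div_iff₀ (by positivity) (by positivity)]
    have : K3 * (H ^ (N + 2) * K1 ^ (w + 1)) = (K3 * K1 ^ (w + 1)) * H ^ (N + 2) := by ring
    rw [this]
    exact mul_le_mul_of_nonneg_right hT' (by positivity)

end Pool.Agent.TH970.UM
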