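import Mathlib

/-! An inhomogeneous approximation lemma from the theorem of Cauchy and Davenport. -/

set_option autoImplicit false

open Polynomial Finset
open scoped Pointwise

namespace Pool.Agent.TH970.UM

/-- the linear form -/
noncomputable def lf (n : ℕ) (ξ : ℝ) (u : Fin n → ℕ) : ℝ := ∑ i, (u i : ℝ) * ξ ^ ((i : ℕ) + 1)

theorem lf_add (n : ℕ) (ξ : ℝ) (u v : Fin n → ℕ) : lf n ξ (u + v) = lf n ξ u + lf n ξ v := by
  unfold lf
  rw [← Finset.sum_add_distrib]
  refine Finset.sum_congr rfl fun i _ => ?_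
  simp only [Pi.add_apply]
  push_cast
  ring

theorem card_nsmul_ge (p : ℕ) (hp : p.Prime) (A : Finset (ZMod p)) (hA : A.Nonempty) (k : ℕ)
    (hk : 1 ≤ k) : min p (k * (#A - 1) + 1) ≤ #(k • A) := by
  have hA1 : 1 ≤ #A := hA.card_pos
  induction k, hk using Nat.le_induction with
  | base =>
    rw [one_nsmul, one_mul]
    have := min_le_right p (#A - 1 + 1)
    omega
  | succ k hk ih =>
    rw [succ_nsmul]
    have hne : (k • A).Nonempty := by
      rw [← Finset.card_pos]
      have h1 := hp.pos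
      have : 0 < min p (k * (#A - 1) + 1) := by
        apply lt_min h1 (by omega)
      omega
    have h := ZMod.cauchy_davenport hp hne hA
    refine le_trans ?_ h
    have e : (k + 1) * (#A - 1) = k * (#A - 1) + (#A - 1) := by ring
    rcases le_total p (k * (#A - 1) + 1) with h1 | h1
    · rw [min_eq_left h1] at ih
      apply le_min (min_le_left _ _)
      have := min_le_left p ((k + 1) * (#A - 1) + 1)
      omega
    · rw [min_eq_right h1] at ih
      apply le_min (min_le_left _ _)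
      have := min_le_right p ((k + 1) * (#A - 1) + 1)
      omega

theorem rep (n : ℕ) (ξ : ℝ) (M p : ℕ) (k : ℕ) (x : ZMod p)
    (hx : x ∈ k • ((Fintype.piFinset fun _ : Fin n => range (M + 1)).image
      fun u => ((⌊(p : ℝ) * lf n ξ u⌋ : ℤ) : ZMod p))) :
    ∃ U : Fin n → ℕ, (∀ i, U i ≤ k * M) ∧ ∃ s : ℤ, (s : ZMod p) = x ∧
      (s : ℝ) ≤ p * lf n ξ U ∧ (p : ℝ) * lf n ξ U ≤ s + k := by
  induction k generalizing x with
  | zero =>
    rw [zero_nsmul] at hx
    have hx0 : x = 0 := by simpa using hx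
    refine ⟨0, by simp, 0, by simp [hx0], ?_, ?_⟩ <;> simp [lf]
  | succ k ih =>
    rw [succ_nsmul, Finset.mem_add] at hx
    obtain ⟨y, hy, z, hz, rfl⟩ := hx
    obtain ⟨U, hU, s, hs, h1, h2⟩ := ih y hy
    obtain ⟨v, hv, rfl⟩ := Finset.mem_image.1 hz
    rw [Fintype.mem_piFinset] at hv
    refine ⟨U + v, fun i => ?_, s + ⌊(p : ℝ) * lf n ξ v⌋, ?_, ?_, ?_⟩
    · have h3 := hU i
      have h4 := Finset.mem_range.1 (hv i)
      have e : (k + 1) * M = k * M + M := by ring
      simp only [Pi.add_apply]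
      omega
    · push_cast
      rw [hs]
    · rw [lf_add]
      have := Int.floor_le ((p : ℝ) * lf n ξ v)
      push_cast
      linarith
    · rw [lf_add]
      have := Int.lt_floor_add_one ((p : ℝ) * lf n ξ v)
      push_cast
      linarith

theorem inh (n : ℕ) (hn : 1 ≤ n) (ξ : ℝ) (M p k : ℕ) (hp : p.Prime) (hk : 1 ≤ k)
    (hsep : ∀ u v : Fin n → ℕ, (∀ i, u i ≤ M) → (∀ i, v i ≤ M) → u ≠ v → ∀ w : ℤ,
      1 / (p : ℝ) ≤ |lf n ξ u - lf n ξ v - w|)
    (hkp : p ≤ k * ((M + 1) ^ n - 1) + 1) (t : ℝ) :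
    ∃ U : Fin n → ℕ, (∀ i, U i ≤ k * M) ∧ ∃ w : ℤ, |lf n ξ U - w - t| ≤ (k + 1) / p := by
  classical
  have hp0 : (0 : ℝ) < p := by exact_mod_cast hp.pos
  haveI : NeZero p := ⟨hp.ne_zero⟩
  set A : Finset (ZMod p) := (Fintype.piFinset fun _ : Fin n => range (M + 1)).image
      fun u => ((⌊(p : ℝ) * lf n ξ u⌋ : ℤ) : ZMod p) with hA
  have hcard : #A = (M + 1) ^ n := by
    rw [hA, Finset.card_image_of_injOn, Fintype.card_piFinset]
    · simp
    · intro u hu v hv huv
      by_contra hne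
      simp only [Finset.mem_coe, Fintype.mem_piFinset, Finset.mem_range] at hu hv
      simp only at huv
      rw [ZMod.intCast_eq_intCast_iff_dvd_sub] at huv
      obtain ⟨w, hw⟩ := huv
      have h1 := hsep u v (fun i => by have := hu i; omega) (fun i => by have := hv i; omega) hne (-w)
      have h2 := Int.floor_le ((p : ℝ) * lf n ξ u)
      have h3 := Int.lt_floor_add_one ((p : ℝ) * lf n ξ u)
      have h4 := Int.floor_le ((p : ℝ) * lf n ξ v)
      have h5 := Int.lt_floor_add_one ((p : ℝ) * lf n ξ v)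
      have hw' : ((⌊(p : ℝ) * lf n ξ v⌋ : ℤ) : ℝ) - (⌊(p : ℝ) * lf n ξ u⌋ : ℤ) = p * w := by
        exact_mod_cast hw
      have h6 : |(p : ℝ) * (lf n ξ u - lf n ξ v - ((-w : ℤ) : ℝ))| < 1 := by
        rw [abs_lt]
        push_cast
        constructor <;> nlinarith
      rw [abs_mul, abs_of_pos hp0] at h6
      rw [div_le_iff₀ hp0] at h1
      linarith
  have hAne : A.Nonempty := by
    rw [← Finset.card_pos, hcard]; positivity
  have hge := card_nsmul_ge p hp A hAne k hk
  rw [hcard, min_eq_left hkp] at hge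
  have huniv : k • A = Finset.univ := by
    apply Finset.eq_univ_of_card
    rw [ZMod.card]
    apply le_antisymm _ hge
    have := Finset.card_le_univ (k • A)
    rwa [ZMod.card] at this
  have hmem : ((⌊(p : ℝ) * t⌋ : ℤ) : ZMod p) ∈ k • A := by rw [huniv]; exact Finset.mem_univ _
  obtain ⟨U, hU, s, hs, h1, h2⟩ := rep n ξ M p k _ hmem
  rw [ZMod.intCast_eq_intCast_iff_dvd_sub] at hs
  obtain ⟨w, hw⟩ := hs
  have hw' : ((⌊(p : ℝ) * t⌋ : ℤ) : ℝ) - s = p * w := by exact_mod_cast hw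
  have h3 := Int.floor_le ((p : ℝ) * t)
  have h4 := Int.lt_floor_add_one ((p : ℝ) * t)
  refine ⟨U, hU, -w, ?_⟩
  rw [le_div_iff₀ hp0]
  have h5 : |(p : ℝ) * (lf n ξ U - ((-w : ℤ) : ℝ) - t)| ≤ k + 1 := by
    rw [abs_le]
    push_cast
    have hk0 : (0 : ℝ) ≤ k := Nat.cast_nonneg k
    constructor <;> nlinarith
  rw [abs_mul, abs_of_pos hp0] at h5
  linarith

end Pool.Agent.TH970.UM
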