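import Pool.Agent.W376.GEL.A2

/-! A resultant inequality which separates the two values. -/

set_option autoImplicit false

open Polynomial
open Pool.Agent.W669.GelA1 Pool.Agent.W85.GelA2 Pool.Agent.W376.GelA

namespace Pool.Agent.TH970.UM

theorem len_C_mul (a : ℂ) (ha : a ≠ 0) (f : ℂ[X]) : len (C a * f) = ‖a‖ * len f := by
  unfold len
  rw [natDegree_C_mul ha, Finset.mul_sum]
  refine Finset.sum_congr rfl fun k _ => ?_
  rw [coeff_C_mul, norm_mul]

theorem res_bound2 (f g : ℂ[X]) (θ : ℂ) (hf : 0 < f.natDegree) (hg : 0 < g.natDegree)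
    (hfl : 1 ≤ len f) (hgl : 1 ≤ len g) :
    ‖resultant f g‖ ≤ (f.natDegree + g.natDegree : ℕ) *
      (max (‖f.eval θ‖ / len f) (‖g.eval θ‖ / len g) *
        (max 1 ‖θ‖) ^ (f.natDegree + g.natDegree)) *
      (len g ^ f.natDegree * len f ^ g.natDegree) := by
  have hfp : 0 < len f := by linarith
  have hgp : 0 < len g := by linarith
  set a : ℂ := (((len f)⁻¹ : ℝ) : ℂ) with ha
  set b : ℂ := (((len g)⁻¹ : ℝ) : ℂ) with hb
  have ha0 : a ≠ 0 := by
    rw [ha]; exact_mod_cast (inv_pos.2 hfp).ne'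
  have hb0 : b ≠ 0 := by
    rw [hb]; exact_mod_cast (inv_pos.2 hgp).ne'
  have hna : ‖a‖ = (len f)⁻¹ := by
    rw [ha, Complex.norm_real, Real.norm_of_nonneg (inv_pos.2 hfp).le]
  have hnb : ‖b‖ = (len g)⁻¹ := by
    rw [hb, Complex.norm_real, Real.norm_of_nonneg (inv_pos.2 hgp).le]
  have hla : len (C a * f) = 1 := by rw [len_C_mul a ha0, hna, inv_mul_cancel₀ hfp.ne']
  have hlb : len (C b * g) = 1 := by rw [len_C_mul b hb0, hnb, inv_mul_cancel₀ hgp.ne']
  have h := res_bound (C a * f) (C b * g) θ (by rwa [natDegree_C_mul ha0])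
    (by rwa [natDegree_C_mul hb0]) hla.ge hlb.ge
  rw [hla, hlb, natDegree_C_mul ha0, natDegree_C_mul hb0] at h
  have hres : resultant (C a * f) (C b * g) f.natDegree g.natDegree =
      a ^ g.natDegree * (b ^ f.natDegree * resultant f g f.natDegree g.natDegree) := by
    rw [resultant_C_mul_left, resultant_C_mul_right]
  rw [hres, norm_mul, norm_mul, norm_pow, norm_pow, hna, hnb] at h
  rw [eval_mul, eval_mul, eval_C, eval_C, norm_mul, norm_mul, hna, hnb] at h
  set p := f.natDegree with hp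
  set q := g.natDegree with hq
  set R := ‖resultant f g p q‖ with hR
  have hpos : 0 < len g ^ p * len f ^ q := by positivity
  have h2 := mul_le_mul_of_nonneg_left h hpos.le
  have e1 : len g ^ p * len f ^ q * ((len f)⁻¹ ^ q * ((len g)⁻¹ ^ p * R)) = R := by
    rw [inv_pow, inv_pow]
    field_simp
  rw [e1] at h2
  refine h2.trans (le_of_eq ?_)
  rw [one_pow, one_pow, mul_one, mul_one, inv_mul_eq_div, inv_mul_eq_div]
  ring

/-- The main inequality: if `Q` is irreducible of degree `m` and very small at `θ`, then an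
irreducible `F` not associated to `Q` is not small at `θ`. -/
theorem main_ineq (θ : ℂ) (n m : ℕ) (hm : 1 ≤ m) : ∃ C : ℝ, 0 ≤ C ∧ ∀ F Q : ℤ[X],
    Irreducible F → Irreducible Q → ¬ Associated F Q → 1 ≤ F.natDegree → F.natDegree ≤ n →
    Q.natDegree = m → aeval θ F ≠ 0 → aeval θ Q ≠ 0 →
    C + n * hh Q + m * hh F < -Real.log ‖aeval θ Q‖ →
    -Real.log ‖aeval θ F‖ ≤ C + n * hh Q + (m - 1) * hh F := by
  set A := max 1 ‖θ‖ with hAdef
  have hA : (1 : ℝ) ≤ A := le_max_left _ _
  have hlA : 0 ≤ Real.log A := Real.log_nonneg hA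
  have hl2 : 0 ≤ Real.log 2 := Real.log_nonneg (by norm_num)
  refine ⟨(n + m) + (n + m) * Real.log A + 2 * (n * m) * Real.log 2, by positivity,
    fun F Q hF hQ hFQ hf1 hfn hQm hFv hQv hW => ?_⟩
  have h1 := one_le_res F Q hF hQ hFQ (by omega) (by omega)
  set f := F.map (Int.castRingHom ℂ) with hf
  set g := Q.map (Int.castRingHom ℂ) with hg
  have hfd : f.natDegree = F.natDegree := natDegree_map_eq_of_injective (RingHom.injective_int _) F
  have hgd : g.natDegree = Q.natDegree := natDegree_map_eq_of_injective (RingHom.injective_int _) Q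
  have hfl := one_le_len F hF.ne_zero
  have hgl := one_le_len Q hQ.ne_zero
  rw [← hf] at hfl
  rw [← hg] at hgl
  have h2 := h1.trans (res_bound2 f g θ (by omega) (by omega) hfl hgl)
  have hef : f.eval θ = aeval θ F := by
    rw [hf, eval_map, aeval_def]; congr 1
  have heg : g.eval θ = aeval θ Q := by
    rw [hg, eval_map, aeval_def]; congr 1
  rw [hfd, hgd, hef, heg, hQm] at h2
  set p := F.natDegree with hpdef
  have hlf : len f ≤ 2 ^ p * f.mahlerMeasure := by rw [← hfd]; exact len_le f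
  have hlg : len g ≤ 2 ^ m * g.mahlerMeasure := by rw [← hQm, ← hgd]; exact len_le g
  have hMf : 1 ≤ f.mahlerMeasure := one_le_mahlerMeasure_of_ne_zero hF.ne_zero
  have hMg : 1 ≤ g.mahlerMeasure := one_le_mahlerMeasure_of_ne_zero hQ.ne_zero
  have hfp : 0 < len f := by linarith
  have hgp : 0 < len g := by linarith
  have hlogf : Real.log (len f) ≤ p * Real.log 2 + hh F := by
    have := Real.log_le_log hfp hlf
    rwa [Real.log_mul (by positivity) (by linarith), Real.log_pow] at this
  have hlogg : Real.log (len g) ≤ m * Real.log 2 + hh Q := by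
    have := Real.log_le_log hgp hlg
    rwa [Real.log_mul (by positivity) (by linarith), Real.log_pow] at this
  have hlogf0 : 0 ≤ Real.log (len f) := Real.log_nonneg hfl
  have hlogg0 : 0 ≤ Real.log (len g) := Real.log_nonneg hgl
  have hp1 : (1 : ℝ) ≤ p := by exact_mod_cast hf1
  have hpn : (p : ℝ) ≤ n := by exact_mod_cast hfn
  have hm1 : (1 : ℝ) ≤ m := by exact_mod_cast hm
  have hpm : (0 : ℝ) < ((p + m : ℕ) : ℝ) := by positivity
  have hlpm : Real.log ((p + m : ℕ) : ℝ) ≤ n + m := by
    have := Real.log_le_sub_one_of_pos hpm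
    push_cast at this ⊢
    linarith
  have hhF := hh_nonneg hF.ne_zero
  have hhQ := hh_nonneg hQ.ne_zero
  have hpos : ∀ x : ℝ, 0 < x → (1 : ℝ) ≤ ((p + m : ℕ) : ℝ) * (x * A ^ (p + m)) *
      (len g ^ p * len f ^ m) → 0 ≤ Real.log ((p + m : ℕ) : ℝ) + (Real.log x + (p + m) *
        Real.log A) + (p * Real.log (len g) + m * Real.log (len f)) := by
    intro x hx h
    have h3 := Real.log_nonneg h
    rw [Real.log_mul (by positivity) (by positivity), Real.log_mul (by positivity) (by positivity),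
      Real.log_mul (by positivity) (by positivity), Real.log_mul (by positivity) (by positivity),
      Real.log_pow, Real.log_pow, Real.log_pow] at h3
    push_cast at h3 ⊢
    linarith
  have a1 : (p : ℝ) * Real.log A ≤ n * Real.log A := mul_le_mul_of_nonneg_right hpn hlA
  have a3 : (p : ℝ) * Real.log (len g) ≤ p * (m * Real.log 2 + hh Q) :=
    mul_le_mul_of_nonneg_left hlogg (by linarith)
  have a4 : (p : ℝ) * (m * Real.log 2) ≤ n * (m * Real.log 2) :=
    mul_le_mul_of_nonneg_right hpn (by positivity)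
  have a5 : (p : ℝ) * hh Q ≤ n * hh Q := mul_le_mul_of_nonneg_right hpn hhQ
  have a6 : (m : ℝ) * (p * Real.log 2) ≤ m * (n * Real.log 2) := by
    apply mul_le_mul_of_nonneg_left _ (by linarith)
    exact mul_le_mul_of_nonneg_right hpn hl2
  rcases le_total (‖aeval θ F‖ / len f) (‖aeval θ Q‖ / len g) with hle | hle
  · exfalso
    rw [max_eq_right hle] at h2
    have h3 := hpos _ (div_pos (norm_pos_iff.2 hQv) hgp) h2
    rw [Real.log_div (norm_ne_zero_iff.2 hQv) hgp.ne'] at h3
    have a2 : (m : ℝ) * Real.log (len f) ≤ m * (p * Real.log 2 + hh F) :=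
      mul_le_mul_of_nonneg_left hlogf (by linarith)
    nlinarith
  · rw [max_eq_left hle] at h2
    have h3 := hpos _ (div_pos (norm_pos_iff.2 hFv) hfp) h2
    rw [Real.log_div (norm_ne_zero_iff.2 hFv) hfp.ne'] at h3
    have a2 : ((m : ℝ) - 1) * Real.log (len f) ≤ (m - 1) * (p * Real.log 2 + hh F) :=
      mul_le_mul_of_nonneg_left hlogf (by linarith)
    have a7 : 0 ≤ (p : ℝ) * Real.log 2 := by positivity
    nlinarith

end Pool.Agent.TH970.UM
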