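import Pool.Agent.TH970.UM.Up
import Pool.Agent.W71.Expo
import Pool.Agent.H961R3.CF

/-! `U_m`-numbers have very good approximations of exact degree `m`. -/

set_option autoImplicit false

open Polynomial
open Pool.Agent.W669.GelA1 Pool.Agent.W85.GelA2 Pool.Agent.W376.GelA Pool.Agent.W71

namespace Pool.Agent.TH970.UM

theorem aeval_norm (ξ : ℝ) (P : ℤ[X]) : ‖(aeval (ξ : ℂ) P : ℂ)‖ = |aeval ξ P| := by
  have : (aeval (ξ : ℂ) P : ℂ) = ((aeval ξ P : ℝ) : ℂ) := by
    have := Polynomial.aeval_algebraMap_apply ℂ ξ P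
    simpa using this
  rw [this, Complex.norm_real, Real.norm_eq_abs]

theorem hgt_pos' {P : ℤ[X]} (h0 : P ≠ 0) : (1 : ℝ) ≤ hgt P := by exact_mod_cast hgt_pos h0

theorem coeff_le (P : ℤ[X]) (i : ℕ) : |(P.coeff i : ℝ)| ≤ hgt P := by
  have h1 := coeff_le_hgt P i
  have h3 : (((P.coeff i).natAbs : ℕ) : ℝ) = |(P.coeff i : ℝ)| := by
    rw [Nat.cast_natAbs]; push_cast; rfl
  rw [← h3]
  exact_mod_cast h1

theorem log_hgt_le {P : ℤ[X]} (h0 : P ≠ 0) (m : ℕ) (hm : P.natDegree ≤ m) :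
    Real.log (hgt P) ≤ m + hh P := by
  have hM := mm_ge h0
  have h1 : (hgt P : ℝ) ≤ 2 ^ m * (P.map (Int.castRingHom ℂ)).mahlerMeasure := by
    apply hgt_le_real _ (by positivity)
    intro i
    refine (Pool.Agent.H961R3.C.coeff_le_Mm P i).trans ?_
    unfold Pool.Agent.H961R3.C.Mm
    gcongr
    norm_num
  have h2 := Real.log_le_log (by linarith [hgt_pos' h0]) h1
  rw [Real.log_mul (by positivity) (by linarith), Real.log_pow] at h2
  have h3 : Real.log 2 ≤ 1 := by
    have := Real.log_two_lt_d9; linarith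
  have h4 : (m : ℝ) * Real.log 2 ≤ m * 1 := mul_le_mul_of_nonneg_left h3 (Nat.cast_nonneg m)
  unfold hh
  linarith

theorem exists_Q (ξ : ℝ) (hξ : Transcendental ℤ ξ) (m : ℕ) (hm : 1 ≤ m) (w0 : ℝ)
    (hfin : {P : ℤ[X] | P.natDegree ≤ m - 1 ∧ 0 < |aeval ξ P| ∧
      |aeval ξ P| ≤ (hgt P : ℝ) ^ (-w0)}.Finite)
    (hinf : ∀ w : ℝ, {P : ℤ[X] | P.natDegree ≤ m ∧ 0 < |aeval ξ P| ∧
      |aeval ξ P| ≤ (hgt P : ℝ) ^ (-w)}.Infinite) (K : ℝ) :
    ∃ Q : ℤ[X], Irreducible Q ∧ Q.natDegree = m ∧ aeval ξ Q ≠ 0 ∧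
      K * (1 + hh Q) ≤ -Real.log |aeval ξ Q| := by
  by_contra hcon
  push Not at hcon
  have hne : ∀ P : ℤ[X], P ≠ 0 → aeval ξ P ≠ 0 := fun P hP h => hξ ⟨P, hP, h⟩
  obtain ⟨M, hM⟩ := (hfin.image (fun P => -Real.log |aeval ξ P|)).bddAbove
  have step1 : ∀ F : ℤ[X], F ≠ 0 → F.natDegree ≤ m - 1 →
      -Real.log |aeval ξ F| ≤ (|w0| * (m + 1) + |M|) * (1 + hh F) := by
    intro F hF hd
    have hhF := hh_nonneg hF
    have hpos := abs_pos.2 (hne F hF)
    have hH1 := hgt_pos' hF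
    have hm0 : (0 : ℝ) ≤ m := Nat.cast_nonneg m
    by_cases hS : |aeval ξ F| ≤ (hgt F : ℝ) ^ (-w0)
    · have h1 : -Real.log |aeval ξ F| ≤ M := hM (Set.mem_image_of_mem _ ⟨hd, hpos, hS⟩)
      have h2 := le_abs_self M
      have h3 : 0 ≤ |w0| * (m + 1) * (1 + hh F) := by positivity
      have h4 : 0 ≤ |M| * hh F := by positivity
      nlinarith
    · push Not at hS
      have h1 := Real.log_lt_log (by positivity) hS
      rw [Real.log_rpow (by linarith)] at h1
      have h2 := log_hgt_le hF m (by omega)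
      have h3 : 0 ≤ Real.log (hgt F) := Real.log_nonneg hH1
      have h4 : w0 * Real.log (hgt F) ≤ |w0| * Real.log (hgt F) :=
        mul_le_mul_of_nonneg_right (le_abs_self _) h3
      have h5 : |w0| * Real.log (hgt F) ≤ |w0| * (m + hh F) :=
        mul_le_mul_of_nonneg_left h2 (abs_nonneg _)
      have h6 : 0 ≤ |M| * (1 + hh F) := by positivity
      have h7 : 0 ≤ |w0| * (1 + m * hh F) := by positivity
      nlinarith
  set C1 : ℝ := |w0| * (m + 1) + |M| with hC1
  have hC10 : 0 ≤ C1 := by positivity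
  set K1 : ℝ := C1 + |K| with hK1
  have hK10 : 0 ≤ K1 := by positivity
  have step3 : ∀ P : ℤ[X], P ≠ 0 → P.natDegree ≤ m →
      -Real.log |aeval ξ P| ≤ K1 * (m + hh P) := by
    intro P hP hd
    have hPv : (aeval (ξ : ℂ) P : ℂ) ≠ 0 := by
      intro h0
      have := aeval_norm ξ P
      rw [h0, norm_zero] at this
      exact hne P hP (abs_eq_zero.1 this.symm)
    have h := claim2 (ξ : ℂ) K1 1 1 P hPv (fun F hF hFP => ?_)
    · rw [aeval_norm] at h
      refine h.trans ?_
      apply mul_le_mul_of_nonneg_left _ hK10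
      unfold ww
      have : (P.natDegree : ℝ) ≤ m := by exact_mod_cast hd
      linarith
    · have hhF := hh_nonneg hF.ne_zero
      rw [aeval_norm]
      unfold ww
      have hFd : F.natDegree ≤ m := (natDegree_le_of_dvd hFP hP).trans hd
      by_cases h0 : F.natDegree = 0
      · have := const_log (ξ : ℂ) F hF.ne_zero h0
        rw [aeval_norm] at this
        have h2 : 0 ≤ K1 * (1 * (F.natDegree : ℝ) + 1 * hh F) := by positivity
        linarith
      · have h1 : (1 : ℝ) ≤ (F.natDegree : ℝ) := by exact_mod_cast Nat.one_le_iff_ne_zero.2 h0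
        have h5 : K1 * (1 + hh F) ≤ K1 * (1 * (F.natDegree : ℝ) + 1 * hh F) := by
          apply mul_le_mul_of_nonneg_left _ hK10
          linarith
        refine le_trans ?_ h5
        rcases Nat.lt_or_ge F.natDegree m with hlt | hge
        · refine (step1 F hF.ne_zero (by omega)).trans ?_
          apply mul_le_mul_of_nonneg_right _ (by linarith)
          rw [hK1]; linarith [abs_nonneg K]
        · refine (hcon F hF (le_antisymm hFd hge) (hne F hF.ne_zero)).le.trans ?_
          apply mul_le_mul_of_nonneg_right _ (by linarith)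
          rw [hK1]; linarith [le_abs_self K]
  apply hinf (K1 + 1)
  refine (finite_hgt m (Real.exp (2 * m * K1))).subset ?_
  rintro P ⟨hd, hpos, hle⟩
  refine ⟨hd, ?_⟩
  have hP : P ≠ 0 := by
    rintro rfl
    simp at hpos
  have hH1 := hgt_pos' hP
  have hHp : (0 : ℝ) < hgt P := by linarith
  have h1 := step3 P hP hd
  have h2 := Real.log_le_log hpos hle
  rw [Real.log_rpow hHp] at h2
  have h3 : hh P ≤ m + Real.log (hgt P) := by
    apply hh_le hP m _ (Nat.cast_nonneg m) (by exact_mod_cast hd)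
    intro i
    rw [Real.exp_log hHp]
    exact coeff_le P i
  have h4 : K1 * (m + hh P) ≤ K1 * (m + (m + Real.log (hgt P))) := by
    apply mul_le_mul_of_nonneg_left _ hK10
    linarith
  have h5 : Real.log (hgt P) ≤ 2 * m * K1 := by nlinarith
  rw [← Real.log_le_iff_le_exp hHp]
  exact h5

end Pool.Agent.TH970.UM
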