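import Pool.Agent.TH970.UM.Res

/-! Upper bound for the uniform exponent at numbers with very good approximations of exact
degree `m`. -/

set_option autoImplicit false

open Polynomial
open Pool.Agent.W669.GelA1 Pool.Agent.W85.GelA2 Pool.Agent.W376.GelA

namespace Pool.Agent.TH970.UM

theorem const_log (θ : ℂ) (R : ℤ[X]) (h0 : R ≠ 0) (hd : R.natDegree = 0) :
    -Real.log ‖aeval θ R‖ ≤ 0 := by
  obtain ⟨c, rfl⟩ : ∃ c, R = Polynomial.C c := ⟨_, eq_C_of_natDegree_eq_zero hd⟩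
  have hc : c ≠ 0 := by
    rintro rfl
    simp at h0
  have h1 : (1 : ℝ) ≤ ‖(aeval θ (Polynomial.C c) : ℂ)‖ := by
    rw [aeval_C]
    simp only [algebraMap_int_eq, eq_intCast, Complex.norm_intCast]
    exact_mod_cast Int.one_le_abs hc
  have h2 := Real.log_nonneg h1
  linarith

theorem rest_ineq (θ : ℂ) (n m : ℕ) (hm : 1 ≤ m) (C : ℝ) (hC : 0 ≤ C)
    (hmain : ∀ F Q : ℤ[X],
    Irreducible F → Irreducible Q → ¬ Associated F Q → 1 ≤ F.natDegree → F.natDegree ≤ n →
    Q.natDegree = m → aeval θ F ≠ 0 → aeval θ Q ≠ 0 →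
    C + n * hh Q + m * hh F < -Real.log ‖aeval θ Q‖ →
    -Real.log ‖aeval θ F‖ ≤ C + n * hh Q + (m - 1) * hh F)
    (Q R : ℤ[X]) (hQ : Irreducible Q) (hQm : Q.natDegree = m) (hQv : aeval θ Q ≠ 0)
    (hR0 : R ≠ 0) (hRv : aeval θ R ≠ 0) (hRn : R.natDegree ≤ n) (hQR : ¬ Q ∣ R)
    (hW : C + n * hh Q + m * hh R < -Real.log ‖aeval θ Q‖) :
    -Real.log ‖aeval θ R‖ ≤ R.natDegree * (C + n * hh Q) + (m - 1) * hh R := by
  have hhQ := hh_nonneg hQ.ne_zero
  have hm1 : (1 : ℝ) ≤ m := by exact_mod_cast hm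
  have h := claim2 θ 1 (C + n * hh Q) (m - 1) R hRv (fun F hF hFR => ?_)
  · unfold ww at h
    linarith
  · obtain ⟨S, hS⟩ := hFR
    have hS0 : S ≠ 0 := by
      rintro rfl
      exact hR0 (by rw [hS, mul_zero])
    have hFv : aeval θ F ≠ 0 := by
      intro h0
      apply hRv
      rw [hS, map_mul, h0, zero_mul]
    have hdeg : F.natDegree ≤ n := by
      have : R.natDegree = F.natDegree + S.natDegree := by rw [hS, natDegree_mul hF.ne_zero hS0]
      omega
    have hhF := hh_nonneg hF.ne_zero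
    have hhS := hh_nonneg hS0
    have hhR : hh R = hh F + hh S := by rw [hS, hh_mul hF.ne_zero hS0]
    have hnn : (0 : ℝ) ≤ n := Nat.cast_nonneg n
    have hcq : 0 ≤ C + n * hh Q := by positivity
    rw [one_mul]
    unfold ww
    have hmF : 0 ≤ ((m : ℝ) - 1) * hh F := mul_nonneg (by linarith) hhF
    by_cases hd : F.natDegree = 0
    · have := const_log θ F hF.ne_zero hd
      have h2 : 0 ≤ (C + n * hh Q) * (F.natDegree : ℝ) := by positivity
      linarith
    · have hd1 : 1 ≤ F.natDegree := by omega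
      have hna : ¬ Associated F Q := by
        intro hA
        exact hQR (hA.symm.dvd.trans ⟨S, hS⟩)
      have h3 := hmain F Q hF hQ hna hd1 hdeg hQm hFv hQv (by
        have : (m : ℝ) * hh F ≤ m * hh R := by
          apply mul_le_mul_of_nonneg_left _ (by linarith)
          linarith
        linarith)
      have hd2 : (1 : ℝ) ≤ (F.natDegree : ℝ) := by exact_mod_cast hd1
      have h4 : (C + n * hh Q) * 1 ≤ (C + n * hh Q) * (F.natDegree : ℝ) :=
        mul_le_mul_of_nonneg_left hd2 hcq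
      linarith

theorem all_ineq (θ : ℂ) (n m D : ℕ) (hm : 1 ≤ m) (hD1 : ∀ a, m * a + 1 ≤ n → m * a + (m - 1) ≤ D)
    (hD2 : n ≤ D) (C : ℝ) (hC : 0 ≤ C)
    (hmain : ∀ F Q : ℤ[X],
    Irreducible F → Irreducible Q → ¬ Associated F Q → 1 ≤ F.natDegree → F.natDegree ≤ n →
    Q.natDegree = m → aeval θ F ≠ 0 → aeval θ Q ≠ 0 →
    C + n * hh Q + m * hh F < -Real.log ‖aeval θ Q‖ →
    -Real.log ‖aeval θ F‖ ≤ C + n * hh Q + (m - 1) * hh F)
    (Q P : ℤ[X]) (hQ : Irreducible Q) (hQm : Q.natDegree = m) (hQv : aeval θ Q ≠ 0)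
    (hP0 : P ≠ 0) (hPv : aeval θ P ≠ 0) (hPn : P.natDegree ≤ n) (T : ℝ) (hT : hh P ≤ T)
    (hW : C + n * hh Q + m * T < -Real.log ‖aeval θ Q‖) :
    -Real.log ‖aeval θ P‖ ≤ D * T + n * (-Real.log ‖aeval θ Q‖ - m * T) +
      n * (C + n * hh Q) := by
  have hfm : FiniteMultiplicity Q P := FiniteMultiplicity.of_not_isUnit hQ.not_isUnit hP0
  obtain ⟨R, hR, hQR⟩ := hfm.exists_eq_pow_mul_and_not_dvd
  set a := multiplicity Q P with ha
  have hR0 : R ≠ 0 := by
    rintro rfl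
    exact hP0 (by rw [hR, mul_zero])
  have hQa : Q ^ a ≠ 0 := pow_ne_zero _ hQ.ne_zero
  have hRv : aeval θ R ≠ 0 := by
    intro h0
    apply hPv
    rw [hR, map_mul, h0, mul_zero]
  have hdeg : P.natDegree = m * a + R.natDegree := by
    rw [hR, natDegree_mul hQa hR0, natDegree_pow, hQm, mul_comm a m]
  have hhpow : ∀ k : ℕ, hh (Q ^ k) = k * hh Q := by
    intro k
    induction k with
    | zero => simp [hh_one]
    | succ k ih =>
      rw [pow_succ, hh_mul (pow_ne_zero _ hQ.ne_zero) hQ.ne_zero, ih]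
      push_cast
      ring
  have hhP : hh P = a * hh Q + hh R := by
    rw [hR, hh_mul hQa hR0, hhpow]
  have hhQ := hh_nonneg hQ.ne_zero
  have hhR := hh_nonneg hR0
  have hhP0 := hh_nonneg hP0
  have hT0 : 0 ≤ T := by linarith
  have hRT : hh R ≤ T := by
    have : 0 ≤ (a : ℝ) * hh Q := by positivity
    linarith
  have hlog : -Real.log ‖aeval θ P‖ = a * (-Real.log ‖aeval θ Q‖) + (-Real.log ‖aeval θ R‖) := by
    rw [hR, map_mul, map_pow, norm_mul, norm_pow, Real.log_mul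
      (pow_ne_zero _ (norm_ne_zero_iff.2 hQv)) (norm_ne_zero_iff.2 hRv), Real.log_pow]
    ring
  set W := -Real.log ‖aeval θ Q‖ with hWd
  have hnn : (0 : ℝ) ≤ n := Nat.cast_nonneg n
  have hcq : 0 ≤ C + n * hh Q := by positivity
  have hE : 0 ≤ W - m * T := by linarith
  have han : (a : ℝ) ≤ n := by
    have h1 : a ≤ m * a := Nat.le_mul_of_pos_left a (by omega)
    have : a ≤ n := by omega
    exact_mod_cast this
  have h5 : (a : ℝ) * (W - m * T) ≤ n * (W - m * T) := mul_le_mul_of_nonneg_right han hE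
  have hm1 : (1 : ℝ) ≤ m := by exact_mod_cast hm
  by_cases hd : R.natDegree = 0
  · have h1 := const_log θ R hR0 hd
    have h2 : m * a ≤ D := by omega
    have h3 : ((m : ℝ) * a) * T ≤ D * T := by
      apply mul_le_mul_of_nonneg_right _ hT0
      exact_mod_cast h2
    have h6 : 0 ≤ (n : ℝ) * (C + n * hh Q) := by positivity
    rw [hlog]
    nlinarith
  · have h1 := rest_ineq θ n m hm C hC hmain Q R hQ hQm hQv hR0 hRv (by omega) hQR (by
      have : (m : ℝ) * hh R ≤ m * T := mul_le_mul_of_nonneg_left hRT (by linarith)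
      linarith)
    have h2 : m * a + (m - 1) ≤ D := hD1 a (by omega)
    have h3 : ((m : ℝ) * a + (m - 1)) * T ≤ D * T := by
      apply mul_le_mul_of_nonneg_right _ hT0
      have h7 : ((m * a + (m - 1) : ℕ) : ℝ) ≤ D := by exact_mod_cast h2
      rw [Nat.cast_add, Nat.cast_mul, Nat.cast_sub hm] at h7
      simpa using h7
    have h6 : (R.natDegree : ℝ) * (C + n * hh Q) ≤ n * (C + n * hh Q) := by
      apply mul_le_mul_of_nonneg_right _ hcq
      have : R.natDegree ≤ n := by omega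
      exact_mod_cast this
    have h8 : ((m : ℝ) - 1) * hh R ≤ (m - 1) * T := mul_le_mul_of_nonneg_left hRT (by linarith)
    rw [hlog]
    nlinarith

/-- For arbitrarily large `H` no polynomial of height at most `H` has absolute value at most
`H ^ (-w)` at `ξ`, if `w > D`. -/
theorem upper (ξ : ℝ) (n m D : ℕ) (hm : 1 ≤ m) (hD1 : ∀ a, m * a + 1 ≤ n → m * a + (m - 1) ≤ D)
    (hD2 : n ≤ D) (hQ : ∀ K : ℝ, ∃ Q : ℤ[X], Irreducible Q ∧ Q.natDegree = m ∧ aeval ξ Q ≠ 0 ∧
      K * (1 + hh Q) ≤ -Real.log |aeval ξ Q|) (w : ℝ) (hw : (D : ℝ) < w) (H0 : ℝ) :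
    ∃ H : ℝ, H0 ≤ H ∧ 1 ≤ H ∧ ∀ P : ℤ[X], P ≠ 0 → P.natDegree ≤ n →
      (∀ i, |(P.coeff i : ℝ)| ≤ H) → aeval ξ P ≠ 0 → H ^ (-w) < |aeval ξ P| := by
  obtain ⟨C, hC, hmain⟩ := main_ineq (ξ : ℂ) n m hm
  have hval : ∀ P : ℤ[X], ‖(aeval (ξ : ℂ) P : ℂ)‖ = |aeval ξ P| := by
    intro P
    have : (aeval (ξ : ℂ) P : ℂ) = ((aeval ξ P : ℝ) : ℂ) := by
      have := Polynomial.aeval_algebraMap_apply ℂ ξ P
      simpa using this
    rw [this, Complex.norm_real, Real.norm_eq_abs]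
  have hval0 : ∀ P : ℤ[X], aeval ξ P ≠ 0 → (aeval (ξ : ℂ) P : ℂ) ≠ 0 := by
    intro P hP h0
    apply hP
    have := hval P
    rw [h0, norm_zero] at this
    exact abs_eq_zero.1 this.symm
  set δ : ℝ := w - D with hδ
  have hδ0 : 0 < δ := by rw [hδ]; linarith
  set B : ℝ := D * n + n + 2 * n * C + 2 * n ^ 2 + 1 with hB
  have hB0 : 0 < B := by positivity
  obtain ⟨Q, hQi, hQm, hQv, hQW⟩ := hQ (n + C + 1 + m * (n + |H0| + B / δ))
  set L := hh Q with hL
  have hL0 : 0 ≤ L := hh_nonneg hQi.ne_zero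
  set W := -Real.log |aeval ξ Q| with hWd
  have hm1 : (1 : ℝ) ≤ m := by exact_mod_cast hm
  have hm0 : (0 : ℝ) < m := by linarith
  set τ : ℝ := (W - C - n * L - 1) / m - n with hτ
  have hmτ : (m : ℝ) * (n + τ) = W - C - n * L - 1 := by
    rw [hτ]; field_simp; ring
  have hBδ : 0 < B / δ := div_pos hB0 hδ0
  have hnn : (0 : ℝ) ≤ n := Nat.cast_nonneg n
  have hτ1 : |H0| + (B / δ) * (1 + L) ≤ τ := by
    have h1 : (m : ℝ) * (n + |H0| + B / δ) * (1 + L) ≤ m * (n + τ) := by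
      rw [hmτ]
      nlinarith [mul_nonneg hC hL0]
    have h2 : (n + |H0| + B / δ) * (1 + L) ≤ n + τ := by
      by_contra hlt
      push Not at hlt
      have := mul_lt_mul_of_pos_left hlt hm0
      nlinarith
    have h3 : 0 ≤ (n : ℝ) * L := by positivity
    have h4 : 0 ≤ |H0| * L := by positivity
    nlinarith
  have hτ0 : 0 ≤ τ := by
    have : 0 ≤ (B / δ) * (1 + L) := by positivity
    linarith [abs_nonneg H0]
  have hδτ : B * (1 + L) ≤ δ * τ := by
    have h1 : δ * ((B / δ) * (1 + L)) = B * (1 + L) := by field_simp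
    have h2 : δ * ((B / δ) * (1 + L)) ≤ δ * τ := by
      apply mul_le_mul_of_nonneg_left _ hδ0.le
      linarith [abs_nonneg H0]
    linarith
  refine ⟨Real.exp τ, ?_, Real.one_le_exp hτ0, ?_⟩
  · have h1 := Real.add_one_le_exp τ
    have h2 := le_abs_self H0
    have : 0 ≤ (B / δ) * (1 + L) := by positivity
    linarith
  · intro P hP0 hPn hPc hPv
    have hhP : hh P ≤ n + τ := hh_le hP0 n τ hnn (by exact_mod_cast hPn) hPc
    have h1 := all_ineq (ξ : ℂ) n m D hm hD1 hD2 C hC hmain Q P hQi hQm (hval0 Q hQv) hP0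
      (hval0 P hPv) hPn (n + τ) hhP (by
        rw [hval, ← hWd, ← hL, hmτ]
        linarith)
    rw [hval, hval, ← hWd, ← hL, hmτ] at h1
    have h2 : -(Real.log |aeval ξ P|) < w * τ := by
      have h3 : B * (1 + L) = (D * n + n + 2 * n * C + 2 * n ^ 2 + 1) * (1 + L) := by rw [hB]
      have h4 : w * τ = D * τ + δ * τ := by rw [hδ]; ring
      have h5 : 0 ≤ (D : ℝ) * n * L := by positivity
      have h6 : 0 ≤ (n : ℝ) * L := by positivity
      have h7 : 0 ≤ (n : ℝ) * C * L := by positivity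
      rw [h4]
      nlinarith
    rw [← Real.exp_mul, ← Real.lt_log_iff_exp_lt (abs_pos.2 hPv)]
    linarith

end Pool.Agent.TH970.UM
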